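import Mathlib
import Pool.Agent.Helper375.EA.Grp

/-!
MP_529953 (Q2), negative answer.  For every prime `p` and every field `k` of characteristic `p`
there is a finitely generated solvable (hence amenable) group `G` in which every finite
`p'`-subgroup is trivial, but `udim kG = ∞`.

`G` is the iterated wreath product `(ℤ ≀ C_p) ≀ ℤ`.
-/

set_option autoImplicit false

namespace Pool.Agent.Results.MP_529953_al.UdimCharP

open MonoidAlgebra

/-- Amenability of a discrete group: there is a left-invariant finitely additive probability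
measure on all subsets. -/
def Amenable (G : Type) [Group G] : Prop :=
  ∃ μ : Set G → ℝ, (∀ A, 0 ≤ μ A) ∧ μ Set.univ = 1 ∧
    (∀ A B : Set G, Disjoint A B → μ (A ∪ B) = μ A + μ B) ∧
    ∀ (g : G) (A : Set G), μ ((fun x => g * x) '' A) = μ A

/-- The right uniform dimension of a ring: the supremum of all `n` such that the ring contains a
direct sum of `n` nonzero right ideals. -/
noncomputable def udim (R : Type*) [Ring R] : ℕ∞ :=
  ⨆ (n : ℕ) (_ : ∃ I : Fin n → Submodule Rᵐᵒᵖ R, (∀ i, I i ≠ ⊥) ∧ iSupIndep I), (n : ℕ∞)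

/-- The unrestricted iterated wreath product `(ℤ ≀ C_p) ≀ ℤ`. -/
@[ext] structure W (p : ℕ) where
  v : ℤ → ZMod p → ℤ
  r : ℤ → ZMod p
  t : ℤ

variable {p : ℕ}

instance : Mul (W p) := ⟨fun a b => ⟨fun i x => a.v i x + b.v (i - a.t) (x - a.r i),
  fun i => a.r i + b.r (i - a.t), a.t + b.t⟩⟩
instance : One (W p) := ⟨⟨0, 0, 0⟩⟩
instance : Inv (W p) := ⟨fun a => ⟨fun i x => - a.v (i + a.t) (x + a.r (i + a.t)),
  fun i => - a.r (i + a.t), - a.t⟩⟩

@[simp] lemma mul_v (a b : W p) (i : ℤ) (x : ZMod p) :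
    (a * b).v i x = a.v i x + b.v (i - a.t) (x - a.r i) := rfl
@[simp] lemma mul_r (a b : W p) (i : ℤ) : (a * b).r i = a.r i + b.r (i - a.t) := rfl
@[simp] lemma mul_t (a b : W p) : (a * b).t = a.t + b.t := rfl
@[simp] lemma one_v (i : ℤ) (x : ZMod p) : (1 : W p).v i x = 0 := rfl
@[simp] lemma one_r (i : ℤ) : (1 : W p).r i = 0 := rfl
@[simp] lemma one_t : (1 : W p).t = 0 := rfl
@[simp] lemma inv_v (a : W p) (i : ℤ) (x : ZMod p) :
    (a⁻¹).v i x = - a.v (i + a.t) (x + a.r (i + a.t)) := rfl
@[simp] lemma inv_r (a : W p) (i : ℤ) : (a⁻¹).r i = - a.r (i + a.t) := rfl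
@[simp] lemma inv_t (a : W p) : (a⁻¹).t = - a.t := rfl

lemma W.ext' {a b : W p} (hv : ∀ i x, a.v i x = b.v i x) (hr : ∀ i, a.r i = b.r i)
    (ht : a.t = b.t) : a = b :=
  W.ext (funext fun i => funext fun x => hv i x) (funext hr) ht

instance : Group (W p) := Group.ofLeftAxioms
  (by
    intro a b c
    apply W.ext'
    · intro i x
      simp only [mul_v, mul_r, mul_t, sub_sub]
      ring
    · intro i
      simp only [mul_r, mul_t, sub_sub]
      ring
    · simp only [mul_t]; ring)
  (by
    intro a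
    apply W.ext' <;> intros <;> simp)
  (by
    intro a
    apply W.ext' <;> intros <;> simp)

instance : Group.IsSolvable (W p) := by
  let f : W p →* Multiplicative ℤ :=
    { toFun := fun w => Multiplicative.ofAdd w.t
      map_one' := rfl
      map_mul' := fun a b => rfl }
  have hf : ∀ w : f.ker, (w : W p).t = 0 := fun w => w.2
  let g : f.ker →* Multiplicative (ℤ → ZMod p) :=
    { toFun := fun w => Multiplicative.ofAdd (w : W p).r
      map_one' := rfl
      map_mul' := fun a b => by
        apply Multiplicative.toAdd.injective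
        funext i
        show ((a : W p) * (b : W p)).r i = (a : W p).r i + (b : W p).r i
        rw [mul_r, hf a, sub_zero] }
  have hg : ∀ w : g.ker, ((w : f.ker) : W p).r = 0 := fun w => w.2
  have h2 : Group.IsSolvable g.ker := by
    refine Group.isSolvable_of_comm fun a b => ?_
    apply Subtype.ext
    apply Subtype.ext
    have ha := hf (a : f.ker)
    have hb := hf (b : f.ker)
    have ha' := hg a
    have hb' := hg b
    show (((a : f.ker) : W p) * ((b : f.ker) : W p)) = ((b : f.ker) : W p) * ((a : f.ker) : W p)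
    apply W.ext'
    · intro i x
      rw [mul_v, mul_v, ha, hb, ha', hb']
      simp only [sub_zero, Pi.zero_apply]
      ring
    · intro i
      rw [mul_r, mul_r, ha, hb, ha', hb']
    · rw [mul_t, mul_t, ha, hb]
  have h1 : Group.IsSolvable f.ker :=
    Group.isSolvable_of_ker_le_range g.ker.subtype g (by simp)
  exact Group.isSolvable_of_ker_le_range f.ker.subtype f (by simp)

/-- the top generator -/
def tau : W p := ⟨0, 0, 1⟩
/-- the element of order `p` in the `i`-th copy of `C_p` -/
def a (i : ℤ) : W p := ⟨0, Pi.single i 1, 0⟩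
/-- the generator of the copy of `ℤ` -/
def f (i : ℤ) : W p := ⟨Pi.single i (Pi.single 0 1), 0, 0⟩

lemma a_succ (i : ℤ) : (a (i + 1) : W p) = tau * a i * tau⁻¹ := by
  apply W.ext'
  · intro j x
    simp [a, tau]
  · intro j
    simp only [a, tau, mul_r, mul_t, inv_r, Pi.zero_apply, neg_zero, add_zero, zero_add]
    by_cases h : j = i + 1
    · subst h; simp
    · rw [Pi.single_eq_of_ne h, Pi.single_eq_of_ne (by omega)]
  · simp [a, tau]

lemma f_succ (i : ℤ) : (f (i + 1) : W p) = tau * f i * tau⁻¹ := by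
  apply W.ext'
  · intro j x
    simp only [f, tau, mul_v, mul_r, mul_t, inv_v, Pi.zero_apply, neg_zero, add_zero, zero_add,
      sub_zero]
    by_cases h : j = i + 1
    · subst h; simp
    · rw [Pi.single_eq_of_ne h, Pi.single_eq_of_ne (by omega)]
  · intro j
    simp [f, tau]
  · simp [f, tau]

lemma a_pow (i : ℤ) (l : ℕ) : (a i : W p) ^ l = ⟨0, Pi.single i (l : ZMod p), 0⟩ := by
  induction l with
  | zero =>
    rw [pow_zero]
    apply W.ext' <;> intros <;> simp
  | succ l ih =>
    rw [pow_succ, ih]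
    apply W.ext'
    · intro j x
      simp [a]
    · intro j
      simp only [a, mul_r, sub_zero, Nat.cast_add, Nat.cast_one]
      by_cases h : j = i
      · subst h; simp
      · simp [Pi.single_eq_of_ne h]
    · simp [a]

lemma a_pow_p (i : ℤ) : (a i : W p) ^ p = 1 := by
  rw [a_pow]
  apply W.ext' <;> intros <;> simp

/-- the conjugate `f_i a_i f_i⁻¹` -/
def b (i : ℤ) : W p := f i * a i * (f i)⁻¹

lemma b_pow_p (i : ℤ) : (b i : W p) ^ p = 1 := by
  rw [b, conj_pow, a_pow_p]; simp

lemma b_t (i : ℤ) : (b i : W p).t = 0 := by simp [b, f, a]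

lemma b_r (i j : ℤ) : (b i : W p).r j = Pi.single (M := fun _ => ZMod p) i 1 j := by
  simp [b, f, a]

lemma b_v (i j : ℤ) (x : ZMod p) (h : j ≠ i) : (b i : W p).v j x = 0 := by
  simp [b, f, a, h]

lemma aa_comm {i j : ℤ} : (a i : W p) * a j = a j * a i := by
  apply W.ext'
  · intro k x; simp [a]
  · intro k; simp only [a, mul_r, sub_zero]; ring
  · simp [a]

lemma ab_comm {i j : ℤ} (h : i ≠ j) : (a i : W p) * b j = b j * a i := by
  apply W.ext'
  · intro k x
    rw [mul_v, mul_v]
    have h1 : (a i : W p).t = 0 := rfl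
    have h2 : ∀ k x, (a i : W p).v k x = 0 := fun _ _ => rfl
    rw [h2, h2, h1, sub_zero, zero_add, add_zero]
    by_cases hk : k = j
    · subst hk
      have : (a i : W p).r k = 0 := by
        show Pi.single (M := fun _ => ZMod p) i 1 k = 0
        exact Pi.single_eq_of_ne (Ne.symm h) _
      rw [this, sub_zero]
    · rw [b_v _ _ _ hk, b_v _ _ _ hk]
  · intro k
    rw [mul_r, mul_r, b_t, sub_zero]
    have h1 : (a i : W p).t = 0 := rfl
    rw [h1, sub_zero, add_comm]
  · rw [mul_t, mul_t, add_comm]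

/-- the elements supported on the coordinates below `n` -/
def C (n : ℤ) : Subgroup (W p) where
  carrier := {g | g.t = 0 ∧ ∀ j, n ≤ j → g.r j = 0 ∧ ∀ x, g.v j x = 0}
  one_mem' := ⟨rfl, fun j _ => ⟨rfl, fun x => rfl⟩⟩
  mul_mem' := by
    rintro g h ⟨hg, hg'⟩ ⟨hh, hh'⟩
    refine ⟨by rw [mul_t, hg, hh, add_zero], fun j hj => ⟨?_, fun x => ?_⟩⟩
    · rw [mul_r, hg, sub_zero, (hg' j hj).1, (hh' j hj).1, add_zero]
    · rw [mul_v, hg, sub_zero, (hg' j hj).2, (hh' j hj).2, add_zero]
  inv_mem' := by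
    rintro g ⟨hg, hg'⟩
    refine ⟨by rw [inv_t, hg, neg_zero], fun j hj => ⟨?_, fun x => ?_⟩⟩
    · rw [inv_r, hg, add_zero, (hg' j hj).1, neg_zero]
    · rw [inv_v, hg, add_zero, (hg' j hj).2, neg_zero]

lemma C_mono {m n : ℤ} (h : m ≤ n) : (C m : Subgroup (W p)) ≤ C n :=
  fun _ hg => ⟨hg.1, fun j hj => hg.2 j (h.trans hj)⟩

lemma a_mem_C (i : ℤ) : (a i : W p) ∈ C (i + 1) := by
  refine ⟨rfl, fun j hj => ⟨?_, fun x => rfl⟩⟩
  show Pi.single (M := fun _ => ZMod p) i 1 j = 0
  exact Pi.single_eq_of_ne (by omega) _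

lemma a_pow_notMem (i : ℤ) {l : ℕ} (h0 : 0 < l) (hl : l < p) : (a i : W p) ^ l ∉ C i := by
  intro h
  have h1 := (h.2 i le_rfl).1
  rw [a_pow] at h1
  simp only [Pi.single_eq_same] at h1
  rw [ZMod.natCast_eq_zero_iff] at h1
  exact absurd (Nat.le_of_dvd h0 h1) (not_le.mpr hl)

lemma b_pow_notMem (i : ℤ) {l : ℕ} (h0 : 0 < l) (hl : l < p) : (b i : W p) ^ l ∉ C i := by
  intro h
  have h1 := (h.2 i le_rfl).1
  rw [b, conj_pow, a_pow] at h1
  simp only [f, mul_r, mul_t, inv_r, Pi.zero_apply, zero_add, sub_zero, Pi.single_eq_same,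
    neg_zero, add_zero] at h1
  rw [ZMod.natCast_eq_zero_iff] at h1
  exact absurd (Nat.le_of_dvd h0 h1) (not_le.mpr hl)

/-- `b_i a_i⁻¹` -/
def d (i : ℤ) : W p := b i * (a i)⁻¹

lemma d_v [Fact p.Prime] (i : ℤ) : (d i : W p).v i 0 = 1 := by
  have : Fact (1 < p) := ⟨(Fact.out : p.Prime).one_lt⟩
  simp [d, b, f, a]

lemma d_r (i j : ℤ) : (d i : W p).r j = 0 := by
  simp [d, b, f, a]

lemma d_t (i : ℤ) : (d i : W p).t = 0 := by
  simp [d, b, f, a]

lemma d_pow [Fact p.Prime] (i : ℤ) (n : ℕ) : ((d i : W p) ^ n).v i 0 = n ∧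
    (∀ j, ((d i : W p) ^ n).r j = 0) ∧ ((d i : W p) ^ n).t = 0 := by
  induction n with
  | zero => exact ⟨by simp, fun j => by simp, by simp⟩
  | succ n ih =>
    obtain ⟨h1, h2, h3⟩ := ih
    rw [pow_succ]
    refine ⟨?_, fun j => ?_, ?_⟩
    · rw [mul_v, h1, h2, h3, sub_zero, sub_zero, d_v]; push_cast; ring
    · rw [mul_r, h2, d_r, add_zero]
    · rw [mul_t, h3, d_t, add_zero]

lemma d_infinite [Fact p.Prime] (i : ℤ) {n : ℕ} (hn : n ≠ 0) : (d i : W p) ^ n ≠ 1 := by
  intro h
  have := (d_pow (p := p) i n).1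
  rw [h, one_v] at this
  exact hn (by exact_mod_cast this.symm)

/-- elements of order prime to `p` -/
lemma eq_one_of_pow [Fact p.Prime] (w : W p) {m : ℕ} (hm : ¬ p ∣ m) (hw : w ^ m = 1) : w = 1 := by
  have hm0 : m ≠ 0 := by rintro rfl; exact hm (dvd_zero p)
  have h1 : ∀ l : ℕ, (w ^ l).t = l * w.t := by
    intro l
    induction l with
    | zero => simp
    | succ l ih => rw [pow_succ, mul_t, ih]; push_cast; ring
  have ht : w.t = 0 := by
    have := h1 m
    rw [hw, one_t] at this
    rcases mul_eq_zero.mp this.symm with h | h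
    · exact absurd (by exact_mod_cast h) hm0
    · exact h
  have h2 : ∀ l : ℕ, ∀ j, (w ^ l).r j = l * w.r j := by
    intro l j
    induction l with
    | zero => simp
    | succ l ih => rw [pow_succ, mul_r, ih, h1, ht, mul_zero, sub_zero]; push_cast; ring
  have hr : ∀ j, w.r j = 0 := by
    intro j
    have := h2 m j
    rw [hw, one_r] at this
    rcases mul_eq_zero.mp this.symm with h | h
    · rw [ZMod.natCast_eq_zero_iff] at h
      exact absurd h hm
    · exact h
  have h3 : ∀ l : ℕ, ∀ j x, (w ^ l).v j x = l * w.v j x := by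
    intro l j x
    induction l with
    | zero => simp
    | succ l ih =>
      rw [pow_succ, mul_v, ih, h1, h2, ht, hr, mul_zero, mul_zero, sub_zero, sub_zero]
      push_cast; ring
  apply W.ext'
  · intro j x
    have := h3 m j x
    rw [hw, one_v] at this
    rcases mul_eq_zero.mp this.symm with h | h
    · exact absurd (by exact_mod_cast h) hm0
    · rw [h, one_v]
  · exact hr
  · exact ht

/-- The group `G = (ℤ ≀ C_p) ≀ ℤ`, generated by three elements. -/
def GG (p : ℕ) : Subgroup (W p) := Subgroup.closure {tau, a 0, f 0}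

lemma tau_mem : (tau : W p) ∈ GG p := Subgroup.subset_closure (by simp)

lemma a_mem (n : ℕ) : (a n : W p) ∈ GG p := by
  induction n with
  | zero => exact Subgroup.subset_closure (by simp)
  | succ n ih =>
    have : ((n + 1 : ℕ) : ℤ) = (n : ℤ) + 1 := by push_cast; ring
    rw [this, a_succ]
    exact (GG p).mul_mem ((GG p).mul_mem tau_mem ih) ((GG p).inv_mem tau_mem)

lemma f_mem (n : ℕ) : (f n : W p) ∈ GG p := by
  induction n with
  | zero => exact Subgroup.subset_closure (by simp)
  | succ n ih =>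
    have : ((n + 1 : ℕ) : ℤ) = (n : ℤ) + 1 := by push_cast; ring
    rw [this, f_succ]
    exact (GG p).mul_mem ((GG p).mul_mem tau_mem ih) ((GG p).inv_mem tau_mem)

lemma b_mem (n : ℕ) : (b n : W p) ∈ GG p :=
  (GG p).mul_mem ((GG p).mul_mem (f_mem n) (a_mem n)) ((GG p).inv_mem (f_mem n))

/-- `a_n` as an element of `G` -/
def A (n : ℕ) : GG p := ⟨a n, a_mem n⟩
/-- `b_n` as an element of `G` -/
def B (n : ℕ) : GG p := ⟨b n, b_mem n⟩

lemma A_pow_p (n : ℕ) : (A n : GG p) ^ p = 1 := Subtype.ext (a_pow_p n)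
lemma B_pow_p (n : ℕ) : (B n : GG p) ^ p = 1 := Subtype.ext (b_pow_p n)
lemma AA_comm (i j : ℕ) : (A i : GG p) * A j = A j * A i := Subtype.ext aa_comm
lemma AB_comm {i j : ℕ} (h : i ≠ j) : (A i : GG p) * B j = B j * A i :=
  Subtype.ext (ab_comm (by exact_mod_cast h))

section algebra

variable {k : Type*} [Field k]

/-- the norm element of the cyclic group generated by `g` -/
noncomputable def N (k : Type*) [Field k] (g : GG p) : MonoidAlgebra k (GG p) :=
  ∑ l ∈ Finset.range p, single (g ^ l) 1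

lemma mul_N (g : GG p) (hg : g ^ p = 1) : single g 1 * N k g = N k g := by
  unfold N
  rw [Finset.mul_sum]
  have h1 : ∀ l ∈ Finset.range p, single g (1 : k) * single (g ^ l) (1 : k) =
      single (g ^ (l + 1)) (1 : k) := by
    intro l _
    rw [single_mul_single, pow_succ', one_mul]
  rw [Finset.sum_congr rfl h1]
  have h2 := Finset.sum_range_succ (fun l => single (g ^ l) (1 : k)) p
  have h3 := Finset.sum_range_succ' (fun l => single (g ^ l) (1 : k)) p
  rw [h2] at h3
  rw [hg, pow_zero] at h3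
  exact (add_right_cancel h3).symm

lemma comm_N (g h : GG p) (hgh : g * h = h * g) :
    single g 1 * N k h = N k h * single g 1 := by
  unfold N
  rw [Finset.mul_sum, Finset.sum_mul]
  refine Finset.sum_congr rfl fun l _ => ?_
  rw [single_mul_single, single_mul_single]
  have : Commute g (h ^ l) := (show Commute g h from hgh).pow_right l
  rw [this.eq]

lemma coeff_N_mul (g : GG p) (x : MonoidAlgebra k (GG p)) (h : GG p) :
    (N k g * x).coeff h = ∑ l ∈ Finset.range p, x.coeff ((g ^ l)⁻¹ * h) := by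
  unfold N
  rw [Finset.sum_mul, coeff_sum, Finsupp.finsetSum_apply]
  refine Finset.sum_congr rfl fun l _ => ?_
  rw [coeff_single_mul_apply, one_mul]

/-- the products of norm elements -/
noncomputable def P (k : Type*) [Field k] (p : ℕ) : ℕ → MonoidAlgebra k (GG p)
  | 0 => 1
  | n + 1 => N k (A n) * P k p n

lemma coeff_aux (g : GG p) (C₀ : Subgroup (W p)) (hg : ∀ l, 0 < l → l < p → ((g : W p)) ^ l ∉ C₀)
    (hp : 0 < p) (x : MonoidAlgebra k (GG p)) (hx1 : x.coeff 1 = 1)
    (hx : ∀ h : GG p, (h : W p) ∉ C₀ → x.coeff h = 0) : (N k g * x).coeff 1 = 1 := by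
  rw [coeff_N_mul, Finset.sum_eq_single_of_mem 0 (Finset.mem_range.mpr hp)]
  · simpa using hx1
  · intro l hl hl0
    apply hx
    rw [mul_one]
    intro hmem
    apply hg l (Nat.pos_of_ne_zero hl0) (Finset.mem_range.mp hl)
    have := C₀.inv_mem hmem
    simpa using this

lemma P_coeff (hp : 0 < p) (n : ℕ) : (P k p n).coeff 1 = 1 ∧
    ∀ h : GG p, (h : W p) ∉ (C n : Subgroup (W p)) → (P k p n).coeff h = 0 := by
  induction n with
  | zero =>
    refine ⟨by simp [P, one_def], ?_⟩
    intro h hh
    have hne : h ≠ 1 := by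
      rintro rfl
      exact hh (Subgroup.one_mem _)
    have : (P k p 0).coeff h = (Finsupp.single (1 : GG p) (1 : k)) h := by
      simp [P, one_def]
    rw [this, Finsupp.single_eq_of_ne hne]
  | succ n ih =>
    obtain ⟨h1, h2⟩ := ih
    refine ⟨?_, ?_⟩
    · exact coeff_aux (A n) (C n) (fun l h0 hl => a_pow_notMem n h0 hl) hp _ h1 h2
    · intro h hh
      show (N k (A n) * P k p n).coeff h = 0
      rw [coeff_N_mul]
      apply Finset.sum_eq_zero
      intro l _
      apply h2
      intro hmem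
      apply hh
      have ha : (a n : W p) ^ l ∈ (C ((n + 1 : ℕ) : ℤ) : Subgroup (W p)) := by
        push_cast
        exact Subgroup.pow_mem _ (a_mem_C _) l
      have hm : ((((A n : GG p) ^ l)⁻¹ * h : GG p) : W p) ∈ (C ((n + 1 : ℕ) : ℤ) : Subgroup (W p)) :=
        C_mono (by push_cast; omega) hmem
      have := Subgroup.mul_mem _ ha hm
      simpa [A] using this

lemma A_mul_P {i n : ℕ} (h : i < n) : single (A i) 1 * P k p n = P k p n := by
  induction n with
  | zero => omega
  | succ n ih =>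
    show single (A i) 1 * (N k (A n) * P k p n) = N k (A n) * P k p n
    rw [← mul_assoc]
    rcases Nat.lt_succ_iff_lt_or_eq.mp h with h | h
    · rw [comm_N _ _ (AA_comm i n), mul_assoc, ih h]
    · subst h
      rw [mul_N _ (A_pow_p i)]

/-- the generators of the right ideals -/
noncomputable def U (k : Type*) [Field k] (p n : ℕ) : MonoidAlgebra k (GG p) :=
  N k (B n) * P k p n

lemma U_ne_zero (hp : 0 < p) (n : ℕ) : U k p n ≠ 0 := by
  intro h
  have h1 := coeff_aux (k := k) (B n) (C n) (fun l h0 hl => b_pow_notMem n h0 hl) hp (P k p n)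
    (P_coeff hp n).1 (P_coeff hp n).2
  have h2 : (U k p n).coeff 1 = 1 := h1
  rw [h] at h2
  simp at h2

lemma B_mul_U (n : ℕ) : single (B n) 1 * U k p n = U k p n := by
  unfold U
  rw [← mul_assoc, mul_N _ (B_pow_p n)]

lemma A_mul_U {i n : ℕ} (h : i < n) : single (A i) 1 * U k p n = U k p n := by
  unfold U
  rw [← mul_assoc, comm_N _ _ (AB_comm h.ne), mul_assoc, A_mul_P h]

/-- the right ideals -/
noncomputable def J (k : Type*) [Field k] (p n : ℕ) :
    Submodule (MonoidAlgebra k (GG p))ᵐᵒᵖ (MonoidAlgebra k (GG p)) :=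
  Submodule.span _ {U k p n}

lemma J_inv {g : GG p} {n : ℕ} (hg : single g 1 * U k p n = U k p n)
    {x : MonoidAlgebra k (GG p)} (hx : x ∈ J k p n) : single g 1 * x = x := by
  obtain ⟨y, rfl⟩ := Submodule.mem_span_singleton.mp hx
  rw [MulOpposite.smul_eq_mul_unop, ← mul_assoc, hg]

lemma eq_zero_of_inv {g : GG p} (hg : ∀ n : ℕ, n ≠ 0 → g ^ n ≠ 1)
    {x : MonoidAlgebra k (GG p)} (hx : single g 1 * x = x) : x = 0 := by
  by_contra hne
  have hsupp : x.coeff.support.Nonempty := by
    rw [Finset.nonempty_iff_ne_empty, Ne, Finsupp.support_eq_empty]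
    intro h
    apply hne
    ext h'
    rw [h]; simp
  obtain ⟨h, hh⟩ := hsupp
  have h1 : ∀ h' : GG p, x.coeff (g * h') = x.coeff h' := by
    intro h'
    have : (single g 1 * x).coeff (g * h') = x.coeff (g * h') := by rw [hx]
    rw [coeff_single_mul_apply, one_mul, inv_mul_cancel_left] at this
    exact this.symm
  have h2 : ∀ n : ℕ, x.coeff (g ^ n * h) = x.coeff h := by
    intro n
    induction n with
    | zero => simp
    | succ n ih => rw [pow_succ', mul_assoc, h1, ih]
  have h3 : Function.Injective (fun n : ℕ => g ^ n * h) := by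
    intro m n hmn
    have hmn' : g ^ m = g ^ n := mul_right_cancel hmn
    by_contra hne'
    rcases lt_or_gt_of_ne hne' with hlt | hlt
    · apply hg (n - m) (by omega)
      have : g ^ n = g ^ m * g ^ (n - m) := by rw [← pow_add]; congr 1; omega
      rw [this] at hmn'
      exact (mul_eq_left.mp hmn'.symm)
    · apply hg (m - n) (by omega)
      have : g ^ m = g ^ n * g ^ (m - n) := by rw [← pow_add]; congr 1; omega
      rw [this] at hmn'
      exact (mul_eq_left.mp hmn')
  have h4 : (Set.range (fun n : ℕ => g ^ n * h)).Finite := by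
    refine (x.coeff.support.finite_toSet).subset ?_
    rintro _ ⟨n, rfl⟩
    rw [Finset.mem_coe, Finsupp.mem_support_iff]
    simp only
    rw [h2]
    exact Finsupp.mem_support_iff.mp hh
  exact Set.infinite_range_of_injective h3 h4

lemma eq_zero_of_inv' [Fact p.Prime] {n : ℕ} {x : MonoidAlgebra k (GG p)}
    (hA : single (A n) 1 * x = x) (hB : single (B n) 1 * x = x) : x = 0 := by
  refine eq_zero_of_inv (g := B n * (A n)⁻¹) ?_ ?_
  · intro m hm h
    have h1 := congrArg (fun g : GG p => (g : W p)) h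
    exact d_infinite (p := p) n hm (by simpa [A, B, d] using h1)
  · have h1 : single ((A n)⁻¹) 1 * x = x := by
      conv_lhs => rw [← hA]
      rw [← mul_assoc, single_mul_single, inv_mul_cancel, one_mul, ← one_def, one_mul]
    have h2 : (single (B n * (A n)⁻¹) (1 : k) : MonoidAlgebra k (GG p)) =
        single (B n) 1 * single ((A n)⁻¹) 1 := by
      rw [single_mul_single, one_mul]
    rw [h2, mul_assoc, h1, hB]

lemma J_indep [Fact p.Prime] : iSupIndep (J k p) := by
  classical
  rw [iSupIndep_iff_finsetSum_eq_zero_imp_eq_zero]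
  intro s v hv hsum i
  induction i using Nat.strong_induction_on with
  | _ i ih =>
    intro hi
    have h1 : v i = - ∑ j ∈ s.filter (fun j => i < j), v j := by
      rw [← Finset.add_sum_erase s v hi, add_eq_zero_iff_eq_neg] at hsum
      rw [hsum]
      congr 1
      symm
      apply Finset.sum_subset
      · intro j hj
        rw [Finset.mem_filter] at hj
        exact Finset.mem_erase.mpr ⟨hj.2.ne', hj.1⟩
      · intro j hj hj'
        rw [Finset.mem_erase] at hj
        apply ih j _ hj.2
        rw [Finset.mem_filter] at hj'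
        push Not at hj'
        exact lt_of_le_of_ne (hj' hj.2) hj.1
    refine eq_zero_of_inv' (n := i) ?_ (J_inv (B_mul_U i) (hv i hi))
    rw [h1, mul_neg, Finset.mul_sum]
    congr 1
    refine Finset.sum_congr rfl fun j hj => ?_
    rw [Finset.mem_filter] at hj
    exact J_inv (A_mul_U hj.2) (hv j hj.1)

lemma J_ne_bot [Fact p.Prime] (n : ℕ) : J k p n ≠ ⊥ := by
  intro h
  have := U_ne_zero (k := k) (Fact.out : p.Prime).pos n
  apply this
  have hmem : U k p n ∈ J k p n := Submodule.mem_span_singleton_self _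
  rw [h] at hmem
  exact (Submodule.mem_bot _).mp hmem

end algebra

/-- For every prime `p` and every field `k` of characteristic `p` there is a finitely generated,
solvable, amenable group all of whose finite `p'`-subgroups are trivial and whose group algebra
over `k` contains an infinite direct sum of nonzero right ideals; in particular its uniform
dimension is infinite. -/
theorem result (p : ℕ) (hp : p.Prime) (k : Type*) [Field k] [CharP k p] :
    ∃ (G : Type) (_ : Group G), Group.FG G ∧ Group.IsSolvable G ∧ Amenable G ∧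
      (∀ F : Subgroup G, Finite F → ¬ p ∣ Nat.card F → Nat.card F ≤ 1) ∧
      (∃ J : ℕ → Submodule (MonoidAlgebra k G)ᵐᵒᵖ (MonoidAlgebra k G),
        (∀ n, J n ≠ ⊥) ∧ iSupIndep J) ∧
      udim (MonoidAlgebra k G) = ⊤ := by
  have : Fact p.Prime := ⟨hp⟩
  refine ⟨GG p, inferInstance, ?_, inferInstance, ?_, ?_, ⟨J k p, J_ne_bot, J_indep⟩, ?_⟩
  · have : Finite ({tau, a 0, f 0} : Set (W p)) :=
      Set.Finite.to_subtype (by simp)
    exact Group.closure_finite_fg _
  · exact HJI.Fol.mean_of_fol Pool.Agent.Helper375.EA.fol_of_solvable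
  · intro F hF hcard
    have hbot : F = ⊥ := by
      rw [eq_bot_iff]
      intro x hx
      rw [Subgroup.mem_bot]
      have h1 : (⟨x, hx⟩ : F) ^ Nat.card F = 1 := pow_card_eq_one'
      have h2 : (x : W p) ^ Nat.card F = 1 := by
        have h3 : ((⟨x, hx⟩ : F) ^ Nat.card F : F).1 = (1 : GG p) := by rw [h1]; rfl
        have h4 : ((⟨x, hx⟩ : F) ^ Nat.card F : F).1 = x ^ Nat.card F := rfl
        rw [h4] at h3
        have h5 : ((x ^ Nat.card F : GG p) : W p) = 1 := by rw [h3]; rfl
        exact h5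
      exact Subtype.ext (eq_one_of_pow _ hcard h2)
    rw [hbot]
    simp
  · rw [eq_top_iff]
    unfold udim
    rw [← ENat.iSup_natCast]
    refine iSup_mono fun n => ?_
    refine le_iSup_of_le ⟨fun i => J k p i, fun i => J_ne_bot _, ?_⟩ le_rfl
    exact (J_indep (k := k) (p := p)).comp Fin.val_injective

end Pool.Agent.Results.MP_529953_al.UdimCharP
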